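import Pool.Agent.helper48.PR.SpecL

/-! Project pr (MP_a2a22c_al), module LINF: infinite range is inherited by approximations. -/

set_option autoImplicit false

namespace Pool.Agent.PR

open Matrix

theorem LINF : LINF_stmt := by
  intro n q _ Λ Γ _ _ f g happ hinf
  by_contra hfin
  rw [Set.not_infinite] at hfin
  apply hinf
  apply hfin.subset
  rintro _ ⟨l, rfl⟩
  have hq : q ≠ 0 := (Fact.out : q.Prime).ne_zero
  have h1 : ∀ k : ℕ, ∃ γ : Γ, MC (q ^ k) (f l : Matrix (Fin n) (Fin n) ℤ_[q]) (g γ) :=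
    fun k => happ (q ^ k) (pow_ne_zero k hq) l
  choose γ hγ using h1
  have hF : Finite (Set.range g) := hfin
  obtain ⟨B, hB⟩ := Finite.exists_infinite_fiber (fun k : ℕ => (⟨g (γ k), γ k, rfl⟩ : Set.range g))
  have hS : ((fun k : ℕ => (⟨g (γ k), γ k, rfl⟩ : Set.range g)) ⁻¹' {B}).Infinite :=
    Set.infinite_coe_iff.1 hB
  have hfB : f l = B.1 := by
    apply Units.ext
    ext i j : 2
    by_contra hne
    have hx : ((f l : Matrix (Fin n) (Fin n) ℤ_[q]) i j -
      (B.1 : Matrix (Fin n) (Fin n) ℤ_[q]) i j) ≠ 0 := sub_ne_zero.2 hne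
    obtain ⟨k, hk, hk'⟩ := hS.exists_gt (((f l : Matrix (Fin n) (Fin n) ℤ_[q]) i j -
      (B.1 : Matrix (Fin n) (Fin n) ℤ_[q]) i j).valuation)
    have e1 : g (γ k) = B.1 := congrArg Subtype.val hk
    have h2 := hγ k i j
    rw [e1, Nat.cast_pow, ← Ideal.mem_span_singleton,
      PadicInt.mem_span_pow_iff_le_valuation _ hx] at h2
    omega
  rw [hfB]
  exact B.2

end Pool.Agent.PR
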