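import Pool.Agent.helper48.PR.SpecC

/-! Project pr (MP_a2a22c_al), module C11: the classification over an algebraically closed field. -/

set_option autoImplicit false

namespace Pool.Agent.PR

open Matrix

theorem C11_finite {n : ℕ} {F : Type} [Field F] (r : SLZ n →* Matrix (Fin n) (Fin n) F)
    (h : r.toHomUnits.ker.FiniteIndex) : (Set.range r).Finite := by
  have h1 : Finite (SLZ n ⧸ r.toHomUnits.ker) := Subgroup.finite_quotient_of_finiteIndex
  have h2 : Finite r.toHomUnits.range :=
    Finite.of_equiv _ (QuotientGroup.quotientKerEquivRange r.toHomUnits).toEquiv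
  have h3 : (Set.range r.toHomUnits).Finite := by
    have : (r.toHomUnits.range : Set (Matrix (Fin n) (Fin n) F)ˣ).Finite := Set.toFinite _
    rwa [MonoidHom.coe_range] at this
  have h4 : Set.range r = Units.val '' Set.range r.toHomUnits := by
    ext m
    constructor
    · rintro ⟨g, rfl⟩
      exact ⟨r.toHomUnits g, ⟨g, rfl⟩, rfl⟩
    · rintro ⟨_, ⟨g, rfl⟩, rfl⟩
      exact ⟨g, rfl⟩
  rw [h4]
  exact h3.image _

theorem C11_std {n : ℕ} (F : Type) [Field F] (i j : Fin n) (h : i ≠ j) (a : ℤ) :
    stdM F (el i j h a) = 1 + Matrix.single i j (a : F) := by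
  unfold stdM
  rw [el_coe, Matrix.map_add _ (fun a b => map_add _ a b)]
  congr 1
  · ext k l
    rw [Matrix.map_apply, Matrix.one_apply, Matrix.one_apply]
    split_ifs <;> simp
  · ext k l
    rw [Matrix.map_apply, Matrix.single_apply, Matrix.single_apply]
    split_ifs <;> simp

theorem C11_du {n : ℕ} (F : Type) [Field F] (i j : Fin n) (h : i ≠ j) :
    duM F (el i j h 1) = 1 - Matrix.single j i (1 : F) := by
  unfold duM
  rw [← el_neg, C11_std, Matrix.transpose_add, Matrix.transpose_one, Matrix.transpose_single]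
  rw [Int.cast_neg, Int.cast_one, sub_eq_add_neg]
  congr 1
  ext k l
  rw [Matrix.neg_apply, Matrix.single_apply, Matrix.single_apply]
  split_ifs <;> simp

theorem C11_hh {n : ℕ} {F : Type} [Field F] {M : Fin n → Fin n → Matrix (Fin n) (Fin n) F}
    {w : Matrix (Fin n) (Fin n) F} {σ : Equiv.Perm (Fin n)} {s : Fin n → ℤ}
    (hs : ∀ i, s i = 1 ∨ s i = -1)
    (hw : ∀ i j : Fin n, i ≠ j → w * M i j = (((s i * s j : ℤ) : F)) • (M (σ i) (σ j) * w))
    (i j : Fin n) (h : i ≠ j) : w * hh M i j = hh M (σ i) (σ j) * w := by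
  have e1 : (s i * s j) * (s j * s i) = 1 := by
    rcases hs i with h1 | h1 <;> rcases hs j with h2 | h2 <;> rw [h1, h2] <;> norm_num
  have e1' : (((s i * s j : ℤ) : F)) * (((s j * s i : ℤ) : F)) = 1 := by
    rw [← Int.cast_mul, e1, Int.cast_one]
  have e2 : ∀ i j : Fin n, i ≠ j → (((s i * s j : ℤ) : F)) * (((s j * s i : ℤ) : F)) = 1 →
      w * (M i j * M j i) = M (σ i) (σ j) * M (σ j) (σ i) * w := by
    intro i j h he
    rw [← mul_assoc, hw i j h, smul_mul_assoc, mul_assoc, hw j i h.symm, mul_smul_comm, smul_smul,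
      he, one_smul, mul_assoc]
  unfold hh
  rw [mul_sub, sub_mul, e2 i j h e1', e2 j i h.symm (by rw [mul_comm]; exact e1')]

theorem C11 (hC4b : C4b_stmt) (hC4c : C4c_stmt) (hC4d : C4d_stmt) (hC6 : C6_stmt) (hC8 : C8_stmt)
    (hC9 : C9_stmt) (hC10 : C10_stmt) (hFIN : FIN_stmt) : C11_stmt := by
  intro n hn F _ _ _ r hinf
  obtain ⟨M, hM, hMr⟩ := hC4b n hn F r
  by_cases hz : ∃ p q, p ≠ q ∧ M p q ≠ 0
  · obtain ⟨v, a, hv, hpq, hva⟩ := hC6 n hn F M hM hz
    have hw : ∀ σ : Equiv.Perm (Fin n), ∃ w w' : Matrix (Fin n) (Fin n) F, w * w' = 1 ∧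
        w' * w = 1 ∧ ∀ i j, i ≠ j → w * hh M i j = hh M (σ i) (σ j) * w := by
      intro σ
      obtain ⟨w, s, hws⟩ := hC4d.2 n (by omega) σ
      refine ⟨r w, r w⁻¹, ?_, ?_, ?_⟩
      · rw [← map_mul, mul_inv_cancel, map_one]
      · rw [← map_mul, inv_mul_cancel, map_one]
      · exact C11_hh hws.1 (hC4d.1 n hn F r M hM hMr w σ s hws)
    obtain ⟨b, c, hb, hc, hbb⟩ := hC8 n hn F M hM hw v a hv hpq hva
    obtain ⟨x, y, hxy, hyx, hor⟩ := hC9 n hn F M hM hz b c hb hc hbb
    have hconj := hC4c n hn F r M hM hMr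
    have hel := hC10 n hn F r M x y hxy hyx hor hconj
    refine ⟨x, y, hxy, hyx, ?_⟩
    rcases hor with hM1 | hM1
    · left
      let f : SLZ n →* Matrix (Fin n) (Fin n) F :=
        { toFun := fun γ => x * stdM F γ * y
          map_one' := by rw [stdM_one, mul_one, hxy]
          map_mul' := fun γ δ => by
            rw [stdM_mul]
            calc x * (stdM F γ * stdM F δ) * y = x * stdM F γ * (1 * (stdM F δ * y)) := by
                  simp only [one_mul, mul_assoc]
              _ = x * stdM F γ * ((y * x) * (stdM F δ * y)) := by rw [hyx]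
              _ = _ := by simp only [mul_assoc] }
      have hf : r = f := by
        apply hom_ext
        intro i j h
        rw [hel i j h, hM1 i j h]
        show _ = x * stdM F (el i j h 1) * y
        rw [C11_std, Int.cast_one, mul_add, add_mul, mul_one, hxy]
      intro γ
      rw [hf]
      rfl
    · right
      let f : SLZ n →* Matrix (Fin n) (Fin n) F :=
        { toFun := fun γ => x * duM F γ * y
          map_one' := by rw [duM_one, mul_one, hxy]
          map_mul' := fun γ δ => by
            rw [duM_mul]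
            calc x * (duM F γ * duM F δ) * y = x * duM F γ * (1 * (duM F δ * y)) := by
                  simp only [one_mul, mul_assoc]
              _ = x * duM F γ * ((y * x) * (duM F δ * y)) := by rw [hyx]
              _ = _ := by simp only [mul_assoc] }
      have hf : r = f := by
        apply hom_ext
        intro i j h
        rw [hel i j h, hM1 i j h]
        show _ = x * duM F (el i j h 1) * y
        rw [C11_du, mul_sub, sub_mul, mul_one, hxy, ← sub_eq_add_neg]
      intro γ
      rw [hf]
      rfl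
  · exfalso
    push Not at hz
    apply hinf
    apply C11_finite
    refine (hFIN n hn n.factorial (Nat.factorial_ne_zero n) r.toHomUnits.ker inferInstance ?_).2
    intro i j h
    rw [MonoidHom.mem_ker]
    apply Units.ext
    show r (el i j h (n.factorial : ℤ)) = 1
    rw [(hMr i j h).2, hz i j h, smul_zero]
    exact IsNilpotent.exp_zero

end Pool.Agent.PR
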